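import Pool.Agent.Helper35.PM.Defs2

set_option autoImplicit false

namespace Pool.Agent.Helper35.PM

open Finset
open scoped Classical

lemma col_half_cut {α K : Type} [Fintype K] (E : Finset α) (x y : α → K)
    (h : ∀ a ∈ E, x a ≠ y a) :
    ∃ ψ : K → Bool, E.card ≤ 2 * (E.filter fun a => ψ (x a) ≠ ψ (y a)).card := by
  by_contra hcon
  push Not at hcon
  have h1 : ∑ ψ : K → Bool, 2 * (E.filter fun a => ψ (x a) ≠ ψ (y a)).card <
      ∑ _ψ : K → Bool, E.card :=
    sum_lt_sum_of_nonempty univ_nonempty (fun ψ _ => hcon ψ)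
  have h2 : ∑ ψ : K → Bool, 2 * (E.filter fun a => ψ (x a) ≠ ψ (y a)).card =
      ∑ a ∈ E, 2 * (univ.filter fun ψ : K → Bool => ψ (x a) ≠ ψ (y a)).card := by
    rw [← mul_sum, ← mul_sum]
    congr 1
    simp only [card_filter]
    exact sum_comm
  have h3 : ∀ a ∈ E, 2 * (univ.filter fun ψ : K → Bool => ψ (x a) ≠ ψ (y a)).card =
      (univ : Finset (K → Bool)).card := by
    intro a ha
    have h4 : (univ.filter fun ψ : K → Bool => ψ (x a) ≠ ψ (y a)).card =
        (univ.filter fun ψ : K → Bool => ¬ ψ (x a) ≠ ψ (y a)).card := by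
      apply card_nbij' (fun ψ => Function.update ψ (x a) (!ψ (x a)))
        (fun ψ => Function.update ψ (x a) (!ψ (x a)))
      · intro ψ hψ
        have h5 := (mem_filter.1 (mem_coe.1 hψ)).2
        rw [mem_coe, mem_filter]
        refine ⟨mem_univ _, ?_⟩
        dsimp only
        rw [Function.update_self, Function.update_of_ne (h a ha).symm]
        revert h5
        cases ψ (x a) <;> cases ψ (y a) <;> simp
      · intro ψ hψ
        have h5 := (mem_filter.1 (mem_coe.1 hψ)).2
        rw [mem_coe, mem_filter]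
        refine ⟨mem_univ _, ?_⟩
        dsimp only
        rw [Function.update_self, Function.update_of_ne (h a ha).symm]
        revert h5
        cases ψ (x a) <;> cases ψ (y a) <;> simp
      · intro ψ _
        funext z
        by_cases hz : z = x a
        · subst hz; simp
        · dsimp only
          rw [Function.update_of_ne hz, Function.update_of_ne hz]
      · intro ψ _
        funext z
        by_cases hz : z = x a
        · subst hz; simp
        · dsimp only
          rw [Function.update_of_ne hz, Function.update_of_ne hz]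
    have h5 := card_filter_add_card_filter_not (s := (univ : Finset (K → Bool)))
      (fun ψ : K → Bool => ψ (x a) ≠ ψ (y a))
    omega
  rw [h2, sum_congr rfl h3] at h1
  simp only [sum_const, smul_eq_mul] at h1
  rw [mul_comm] at h1
  exact lt_irrefl _ h1

lemma col_count {V : Type} (X P Z : Finset V) (hP : P ⊆ X) (m : ℕ) (hm : (P ∪ Z).card ≤ m)
    (hPZ : Disjoint P Z) (good : Finset V → Prop) [DecidablePred good]
    (hg : ∀ Y ⊆ X, P ⊆ Y → Disjoint Y Z → good Y) :
    2 ^ X.card ≤ 2 ^ m * (X.powerset.filter good).card := by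
  have h1 : 2 ^ (X \ (P ∪ Z)).card ≤ (X.powerset.filter good).card := by
    rw [← card_powerset]
    apply card_le_card_of_injOn (fun Y => Y ∪ P)
    · intro Y hY
      have hY' := mem_powerset.1 (mem_coe.1 hY)
      rw [mem_coe, mem_filter, mem_powerset]
      have hsub : Y ∪ P ⊆ X := union_subset (hY'.trans sdiff_subset) hP
      refine ⟨hsub, hg _ hsub subset_union_right ?_⟩
      rw [disjoint_union_left]
      refine ⟨?_, hPZ⟩
      rw [disjoint_left]
      intro v hv hvZ
      exact (mem_sdiff.1 (hY' hv)).2 (mem_union_right _ hvZ)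
    · intro Y hY Y' hY' heq
      have h2 := mem_powerset.1 (mem_coe.1 hY)
      have h3 := mem_powerset.1 (mem_coe.1 hY')
      have h4 : Disjoint Y P := by
        rw [disjoint_left]
        intro v hv hvP
        exact (mem_sdiff.1 (h2 hv)).2 (mem_union_left _ hvP)
      have h5 : Disjoint Y' P := by
        rw [disjoint_left]
        intro v hv hvP
        exact (mem_sdiff.1 (h3 hv)).2 (mem_union_left _ hvP)
      simp only at heq
      rw [← union_sdiff_cancel_right h4, ← union_sdiff_cancel_right h5, heq]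
  have h2 : X.card ≤ m + (X \ (P ∪ Z)).card := by
    have := le_card_sdiff (P ∪ Z) X
    omega
  calc 2 ^ X.card ≤ 2 ^ (m + (X \ (P ∪ Z)).card) := Nat.pow_le_pow_right (by norm_num) h2
    _ = 2 ^ m * 2 ^ (X \ (P ∪ Z)).card := pow_add _ _ _
    _ ≤ _ := Nat.mul_le_mul_left _ h1

/-- the graph `Q` on `Y` -/
def colG {V : Type} (Q : SimpleGraph V) (Y : Finset V) : SimpleGraph V where
  Adj u v := u ∈ Y ∧ v ∈ Y ∧ Q.Adj u v
  symm := ⟨fun _ _ h => ⟨h.2.1, h.1, h.2.2.symm⟩⟩
  loopless := ⟨fun u h => Q.loopless.irrefl u h.2.2⟩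

lemma col_sep {V : Type} (Q : SimpleGraph V) (X' X₁ X₂ Y : Finset V) (hsep : IsSep Q X' X₁ X₂)
    (hY : Y ⊆ X') (hd : Disjoint Y (X₁ ∩ X₂)) (x y : V) (hx : x ∈ X₁ \ X₂) (hy : y ∈ X₂ \ X₁) :
    ¬ (colG Q Y).Reachable x y := by
  intro hr
  have hkey : ∀ u v : V, ∀ w : (colG Q Y).Walk u v, u ∈ X₁ \ X₂ → v ∈ X₁ \ X₂ := by
    intro u v w
    induction w with
    | nil => exact fun h => h
    | cons hadj _ ih =>
      intro hu
      apply ih
      obtain ⟨_, h2, h3⟩ := hadj
      have h4 := hY h2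
      rw [← hsep.1, mem_union] at h4
      have h5 : _ ∉ X₁ ∩ X₂ := disjoint_left.1 hd h2
      rw [mem_inter] at h5
      rw [mem_sdiff]
      rcases h4 with h4 | h4
      · exact ⟨h4, fun h => h5 ⟨h4, h⟩⟩
      · exfalso
        exact hsep.2 _ hu _ (mem_sdiff.2 ⟨h4, fun h => h5 ⟨h, h4⟩⟩) h3
  obtain ⟨w⟩ := hr
  have h1 := hkey x y w hx
  rw [mem_sdiff] at h1 hy
  exact h1.2 hy.1

/-- PM-7b: choice of `V'` and of the colourings. -/
theorem exists_colouring {V : Type} [Fintype V] (s : Sys V) (κ : ℕ) (X : Finset V)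
    (L : Finset (V × V)) (hL : L ⊆ s.Bad κ X) :
    ∃ (Y : Finset V) (φ : V → V → Bool), Y ⊆ X ∧
      (∀ w, ∀ x ∈ Y, ∀ y ∈ Y, (s.QG (insert w X)).Adj x y → φ w x = φ w y) ∧
      L.card ≤ 2 ^ (κ + 2) * (L.filter fun p => s.N p.1 ∩ X ⊆ Y ∧
        ∃ x ∈ s.N p.1 ∩ X, ∃ y ∈ s.N p.1 ∩ X, φ p.2 x ≠ φ p.2 y).card := by
  have hbad : ∀ p : V × V, ∃ x y : V, p ∈ L → (x ∈ s.N p.1 ∩ X ∧ y ∈ s.N p.1 ∩ X ∧
      Sepd κ (s.QG (insert p.2 X)) (insert p.2 X) x y) := by
    intro p
    by_cases hp : p ∈ L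
    · obtain ⟨x, hx, y, hy, h⟩ := (mem_filter.1 (hL hp)).2.2.2
      exact ⟨x, y, fun _ => ⟨hx, hy, h⟩⟩
    · exact ⟨p.1, p.1, fun h => absurd h hp⟩
  choose x y hall using hbad
  have hx : ∀ p ∈ L, x p ∈ s.N p.1 ∩ X := fun p hp => (hall p hp).1
  have hy : ∀ p ∈ L, y p ∈ s.N p.1 ∩ X := fun p hp => (hall p hp).2.1
  have hxy : ∀ p ∈ L, Sepd κ (s.QG (insert p.2 X)) (insert p.2 X) (x p) (y p) :=
    fun p hp => (hall p hp).2.2
  have htwo : ∀ p ∈ L, s.N p.1 ∩ X = {x p, y p} := by
    intro p hp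
    have h1 := (mem_filter.1 (hL hp)).1
    rw [mem_product] at h1
    have h2 : (s.N p.1 ∩ X).card = 2 := (mem_filter.1 h1.1).2.1
    have hne : x p ≠ y p := by
      obtain ⟨X₁, X₂, _, _, h3, h4⟩ := hxy p hp
      rw [mem_sdiff] at h3 h4
      intro h5
      rw [h5] at h3
      exact h4.2 h3.1
    symm
    apply eq_of_subset_of_card_le
    · intro z hz
      rw [mem_insert, mem_singleton] at hz
      rcases hz with rfl | rfl
      · exact hx p hp
      · exact hy p hp
    · rw [h2, card_pair hne]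
  let cmp : V → Finset V → V → V := fun w Y v =>
    ((colG (s.QG (insert w X)) Y).connectedComponentMk v).out
  let good : Finset V → V × V → Prop := fun Y p =>
    x p ∈ Y ∧ y p ∈ Y ∧ cmp p.2 Y (x p) ≠ cmp p.2 Y (y p)
  have hcnt : ∀ p ∈ L, 2 ^ X.card ≤ 2 ^ (κ + 1) * (X.powerset.filter fun Y => good Y p).card := by
    intro p hp
    obtain ⟨X₁, X₂, hsep, hcard, hx1, hy1⟩ := hxy p hp
    refine col_count X {x p, y p} (X₁ ∩ X₂) ?_ (κ + 1) ?_ ?_ (fun Y => good Y p) ?_
    · rw [← htwo p hp]; exact inter_subset_right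
    · have h1 := card_union_le {x p, y p} (X₁ ∩ X₂)
      have h2 : ({x p, y p} : Finset V).card ≤ 2 := card_le_two
      omega
    · rw [disjoint_left]
      intro v hv hv2
      rw [mem_insert, mem_singleton] at hv
      rw [mem_inter] at hv2
      rcases hv with rfl | rfl
      · exact (mem_sdiff.1 hx1).2 hv2.2
      · exact (mem_sdiff.1 hy1).2 hv2.1
    · intro Y hYX hPY hYd
      refine ⟨hPY (by simp), hPY (by simp), ?_⟩
      intro heq
      have h1 : (colG (s.QG (insert p.2 X)) Y).connectedComponentMk (x p) =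
          (colG (s.QG (insert p.2 X)) Y).connectedComponentMk (y p) := by
        have h2 := congrArg ((colG (s.QG (insert p.2 X)) Y).connectedComponentMk) heq
        simp only [cmp] at h2
        have h3 : ∀ c : (colG (s.QG (insert p.2 X)) Y).ConnectedComponent,
          (colG (s.QG (insert p.2 X)) Y).connectedComponentMk c.out = c := fun c => Quot.out_eq c
        rwa [h3, h3] at h2
      rw [SimpleGraph.ConnectedComponent.eq] at h1
      exact col_sep _ (insert p.2 X) X₁ X₂ Y hsep (hYX.trans (subset_insert _ _)) hYd _ _ hx1 hy1 h1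
  -- choice of `Y`
  have hY : ∃ Y ∈ X.powerset, L.card ≤ 2 ^ (κ + 1) * (L.filter fun p => good Y p).card := by
    by_contra hcon
    push Not at hcon
    have h1 : ∑ Y ∈ X.powerset, 2 ^ (κ + 1) * (L.filter fun p => good Y p).card <
        ∑ _Y ∈ X.powerset, L.card :=
      sum_lt_sum_of_nonempty ⟨∅, empty_mem_powerset _⟩ hcon
    have h2 : ∑ Y ∈ X.powerset, 2 ^ (κ + 1) * (L.filter fun p => good Y p).card =
        ∑ p ∈ L, 2 ^ (κ + 1) * (X.powerset.filter fun Y => good Y p).card := by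
      rw [← mul_sum, ← mul_sum]
      congr 1
      simp only [card_filter]
      exact sum_comm
    have h3 := sum_le_sum hcnt
    rw [sum_const, smul_eq_mul] at h3
    rw [h2, sum_const, smul_eq_mul, card_powerset] at h1
    rw [mul_comm] at h1
    omega
  obtain ⟨Y, hYX, hYL⟩ := hY
  rw [mem_powerset] at hYX
  have hψ : ∀ w : V, ∃ ψ : V → Bool, (L.filter fun p => good Y p ∧ p.2 = w).card ≤
      2 * ((L.filter fun p => good Y p ∧ p.2 = w).filter fun p =>
        ψ (cmp w Y (x p)) ≠ ψ (cmp w Y (y p))).card := by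
    intro w
    apply col_half_cut _ (fun p => cmp w Y (x p)) (fun p => cmp w Y (y p))
    intro p hp
    obtain ⟨_, h1, h2⟩ := mem_filter.1 hp
    rw [← h2]
    exact h1.2.2
  choose ψ hψ using hψ
  refine ⟨Y, fun w v => ψ w (cmp w Y v), hYX, ?_, ?_⟩
  · intro w u hu v hv huv
    have h1 : (colG (s.QG (insert w X)) Y).connectedComponentMk u =
        (colG (s.QG (insert w X)) Y).connectedComponentMk v := by
      rw [SimpleGraph.ConnectedComponent.eq]
      exact SimpleGraph.Adj.reachable (G := colG (s.QG (insert w X)) Y) ⟨hu, hv, huv⟩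
    simp only [cmp, h1]
  · have h1 : (L.filter fun p => good Y p).card =
        ∑ w : V, (L.filter fun p => good Y p ∧ p.2 = w).card := by
      rw [card_eq_sum_card_fiberwise (f := fun p : V × V => p.2) (t := univ)
        (fun _ _ => mem_univ _)]
      apply sum_congr rfl
      intro w _
      rw [filter_filter]
    have h2 : ∑ w : V, ((L.filter fun p => good Y p ∧ p.2 = w).filter fun p =>
        ψ w (cmp w Y (x p)) ≠ ψ w (cmp w Y (y p))).card ≤
        (L.filter fun p => s.N p.1 ∩ X ⊆ Y ∧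
        ∃ x ∈ s.N p.1 ∩ X, ∃ y ∈ s.N p.1 ∩ X,
          ψ p.2 (cmp p.2 Y x) ≠ ψ p.2 (cmp p.2 Y y)).card := by
      rw [card_eq_sum_card_fiberwise (f := fun p : V × V => p.2) (t := univ)
        (fun _ _ => mem_univ _)]
      apply sum_le_sum
      intro w _
      apply card_le_card
      intro p hp
      rw [mem_filter, mem_filter] at hp
      obtain ⟨⟨hpL, hg, hpw⟩, hne⟩ := hp
      simp only [mem_filter]
      refine ⟨⟨hpL, ?_, x p, hx p hpL, y p, hy p hpL, ?_⟩, hpw⟩
      · rw [htwo p hpL]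
        intro z hz
        rw [mem_insert, mem_singleton] at hz
        rcases hz with rfl | rfl
        · exact hg.1
        · exact hg.2.1
      · rw [hpw]; exact hne
    have h3 : (L.filter fun p => good Y p).card ≤ 2 * (L.filter fun p => s.N p.1 ∩ X ⊆ Y ∧
        ∃ x ∈ s.N p.1 ∩ X, ∃ y ∈ s.N p.1 ∩ X,
          ψ p.2 (cmp p.2 Y x) ≠ ψ p.2 (cmp p.2 Y y)).card := by
      rw [h1]
      calc _ ≤ ∑ w : V, 2 * ((L.filter fun p => good Y p ∧ p.2 = w).filter fun p =>
            ψ w (cmp w Y (x p)) ≠ ψ w (cmp w Y (y p))).card := sum_le_sum (fun w _ => hψ w)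
        _ = 2 * ∑ w : V, ((L.filter fun p => good Y p ∧ p.2 = w).filter fun p =>
            ψ w (cmp w Y (x p)) ≠ ψ w (cmp w Y (y p))).card := by rw [mul_sum]
        _ ≤ _ := Nat.mul_le_mul_left _ h2
    calc L.card ≤ 2 ^ (κ + 1) * (L.filter fun p => good Y p).card := hYL
      _ ≤ 2 ^ (κ + 1) * (2 * _) := Nat.mul_le_mul_left _ h3
      _ = _ := by rw [← mul_assoc, ← pow_succ]

end Pool.Agent.Helper35.PM
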