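import Pool.Agent.Helper35.PM.Defs2

set_option autoImplicit false

namespace Pool.Agent.Helper35.PM

open Finset
open scoped Classical

/-- `t` arises from `s` by deleting one element -/
def H2R {α : Type} (s t : Finset α) : Prop := t ⊆ s ∧ s.card = t.card + 1

/-- the edges of the one-inclusion graph -/
noncomputable def H2P {α : Type} (F : Finset (Finset α)) : Finset (Finset α × Finset α) :=
  (F ×ˢ F).filter fun p => H2R p.1 p.2

lemma h2_mem_P {α : Type} {F : Finset (Finset α)} {s t : Finset α} :
    (s, t) ∈ H2P F ↔ s ∈ F ∧ t ∈ F ∧ t ⊆ s ∧ s.card = t.card + 1 := by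
  unfold H2P
  rw [mem_filter, mem_product]
  unfold H2R
  tauto

lemma h2_supermod {α : Type} (F G : Finset (Finset α)) :
    (H2P F).card + (H2P G).card ≤ (H2P (F ∪ G)).card + (H2P (F ∩ G)).card := by
  rw [← card_union_add_card_inter]
  apply Nat.add_le_add
  · apply card_le_card
    rintro ⟨s, t⟩ h
    rw [mem_union, h2_mem_P, h2_mem_P] at h
    rw [h2_mem_P, mem_union, mem_union]
    tauto
  · apply card_le_card
    rintro ⟨s, t⟩ h
    rw [mem_inter, h2_mem_P, h2_mem_P] at h
    rw [h2_mem_P, mem_inter, mem_inter]
    tauto

lemma h2_main {α : Type} (A : Finset α) : ∀ (F : Finset (Finset α)), (∀ s ∈ F, s ⊆ A) →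
    ∀ d : ℕ, (∀ T : Finset α, F.Shatters T → T.card ≤ d) → (H2P F).card ≤ d * F.card := by
  induction A using Finset.induction_on with
  | empty =>
    intro F hF d _
    have : H2P F = ∅ := by
      rw [Finset.eq_empty_iff_forall_notMem]
      rintro ⟨s, t⟩ h
      rw [h2_mem_P] at h
      have h1 := hF s h.1
      rw [subset_empty] at h1
      rw [h1] at h
      simp at h
    rw [this]
    simp
  | insert a A ha ih =>
    intro F hF d hd
    set NM := F.filter (fun s => a ∉ s) with hNM
    set M := (F.filter (fun s => a ∈ s)).image (fun s => s.erase a) with hM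
    have memNM : ∀ s, s ∈ NM ↔ s ∈ F ∧ a ∉ s := by intro s; rw [hNM, mem_filter]
    have memM : ∀ s, s ∈ M ↔ insert a s ∈ F ∧ a ∉ s := by
      intro s
      rw [hM, mem_image]
      constructor
      · rintro ⟨t, ht, rfl⟩
        rw [mem_filter] at ht
        rw [insert_erase ht.2]
        exact ⟨ht.1, notMem_erase a t⟩
      · rintro ⟨h1, h2⟩
        exact ⟨insert a s, mem_filter.2 ⟨h1, mem_insert_self a s⟩, erase_insert h2⟩
    have hcardF : F.card = NM.card + M.card := by
      have h1 : M.card = (F.filter (fun s => a ∈ s)).card := by
        rw [hM]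
        apply card_image_of_injOn
        intro s hs t ht hst
        have hs' := (mem_filter.1 (mem_coe.1 hs)).2
        have ht' := (mem_filter.1 (mem_coe.1 ht)).2
        simp only at hst
        rw [← insert_erase hs', ← insert_erase ht', hst]
      rw [h1, hNM, add_comm]
      exact (card_filter_add_card_filter_not (s := F) (fun s => a ∈ s)).symm
    have hNMA : ∀ s ∈ NM, s ⊆ A := by
      intro s hs x hx
      have h1 := (memNM s).1 hs
      have h2 := hF s h1.1 hx
      rcases mem_insert.1 h2 with rfl | h3
      · exact absurd hx h1.2
      · exact h3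
    have hMA : ∀ s ∈ M, s ⊆ A := by
      intro s hs x hx
      have h1 := (memM s).1 hs
      have h2 := hF _ h1.1 (mem_insert_of_mem hx)
      rcases mem_insert.1 h2 with rfl | h3
      · exact absurd hx h1.2
      · exact h3
    -- edges
    have hedge : (H2P F).card ≤ (H2P NM).card + (H2P M).card + (NM ∩ M).card := by
      have hsub : H2P F ⊆ (H2P NM ∪ (H2P M).image (fun p => (insert a p.1, insert a p.2))) ∪
          (NM ∩ M).image (fun t => (insert a t, t)) := by
        rintro ⟨s, t⟩ h
        rw [h2_mem_P] at h
        obtain ⟨hs, ht, hts, hc⟩ := h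
        by_cases h1 : a ∈ s
        · by_cases h2 : a ∈ t
          · apply mem_union_left
            apply mem_union_right
            rw [mem_image]
            refine ⟨(s.erase a, t.erase a), ?_, ?_⟩
            · rw [h2_mem_P, memM, memM, insert_erase h1, insert_erase h2]
              refine ⟨⟨hs, notMem_erase a s⟩, ⟨ht, notMem_erase a t⟩, erase_subset_erase a hts, ?_⟩
              rw [card_erase_of_mem h1, card_erase_of_mem h2]
              have := card_pos.2 ⟨a, h2⟩
              omega
            · simp only [insert_erase h1, insert_erase h2]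
          · apply mem_union_right
            have h3 : s = insert a t := by
              symm
              apply eq_of_subset_of_card_le
              · intro x hx
                rcases mem_insert.1 hx with rfl | hx
                · exact h1
                · exact hts hx
              · rw [card_insert_of_notMem h2, hc]
            rw [mem_image]
            refine ⟨t, ?_, by rw [h3]⟩
            rw [mem_inter, memNM, memM, ← h3]
            exact ⟨⟨ht, h2⟩, hs, h2⟩
        · apply mem_union_left
          apply mem_union_left
          rw [h2_mem_P, memNM, memNM]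
          exact ⟨⟨hs, h1⟩, ⟨ht, fun h => h1 (hts h)⟩, hts, hc⟩
      calc (H2P F).card ≤ _ := card_le_card hsub
        _ ≤ (H2P NM ∪ (H2P M).image (fun p => (insert a p.1, insert a p.2))).card +
            ((NM ∩ M).image (fun t => (insert a t, t))).card := card_union_le _ _
        _ ≤ ((H2P NM).card + ((H2P M).image (fun p => (insert a p.1, insert a p.2))).card) +
            ((NM ∩ M).image (fun t => (insert a t, t))).card :=
            Nat.add_le_add_right (card_union_le _ _) _
        _ ≤ _ := Nat.add_le_add (Nat.add_le_add_left card_image_le _) card_image_le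
    have hsup := h2_supermod NM M
    have hshF0 : ∀ T : Finset α, (NM ∪ M).Shatters T → F.Shatters T := by
      intro T hT
      have hTA : a ∉ T := by
        obtain ⟨u, hu, hTu⟩ := hT (Subset.refl T)
        have h1 : T ⊆ u := by rw [← hTu]; exact inter_subset_right
        intro haT
        rcases mem_union.1 hu with hu | hu
        · exact ha (hNMA u hu (h1 haT))
        · exact ha (hMA u hu (h1 haT))
      intro t ht
      obtain ⟨u, hu, hTu⟩ := hT ht
      rcases mem_union.1 hu with hu | hu
      · exact ⟨u, ((memNM u).1 hu).1, hTu⟩
      · refine ⟨insert a u, ((memM u).1 hu).1, ?_⟩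
        rw [inter_insert_of_notMem hTA, hTu]
    have hF0 := ih (NM ∪ M) (by
      intro s hs
      rcases mem_union.1 hs with hs | hs
      · exact hNMA s hs
      · exact hMA s hs) d (fun T hT => hd T (hshF0 T hT))
    have hcard2 := card_union_add_card_inter NM M
    rcases (NM ∩ M).eq_empty_or_nonempty with hemp | hne
    · have h1 : H2P (NM ∩ M) = ∅ := by
        rw [hemp, Finset.eq_empty_iff_forall_notMem]
        rintro ⟨s, t⟩ h
        rw [h2_mem_P] at h
        simp at h
      rw [h1] at hsup
      rw [hemp] at hedge hcard2
      simp only [card_empty, add_zero] at hsup hedge hcard2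
      rw [hcardF, ← hcard2]
      omega
    · have hshF1 : ∀ T : Finset α, (NM ∩ M).Shatters T → T.card + 1 ≤ d := by
        intro T hT
        have hTA : a ∉ T := by
          obtain ⟨u, hu, hTu⟩ := hT (Subset.refl T)
          have h1 : T ⊆ u := by rw [← hTu]; exact inter_subset_right
          intro haT
          exact ha (hNMA u (mem_inter.1 hu).1 (h1 haT))
        have h2 : F.Shatters (insert a T) := by
          intro t ht
          by_cases hat : a ∈ t
          · have ht' : t.erase a ⊆ T := by
              intro x hx
              rw [mem_erase] at hx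
              rcases mem_insert.1 (ht hx.2) with h | h
              · exact absurd h hx.1
              · exact h
            obtain ⟨u, hu, hTu⟩ := hT ht'
            refine ⟨insert a u, ((memM u).1 (mem_inter.1 hu).2).1, ?_⟩
            rw [← insert_inter_distrib, hTu, insert_erase hat]
          · have ht' : t ⊆ T := by
              intro x hx
              rcases mem_insert.1 (ht hx) with h | h
              · rw [h] at hx; exact absurd hx hat
              · exact h
            obtain ⟨u, hu, hTu⟩ := hT ht'
            have hau := ((memNM u).1 (mem_inter.1 hu).1)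
            refine ⟨u, hau.1, ?_⟩
            rw [insert_inter_of_notMem hau.2, hTu]
        have := hd _ h2
        rwa [card_insert_of_notMem hTA] at this
      have hd1 : 1 ≤ d := by
        have := hshF1 ∅ (by
          intro t ht
          obtain ⟨u, hu⟩ := hne
          refine ⟨u, hu, ?_⟩
          rw [subset_empty.1 ht, empty_inter])
        omega
      have hF1 := ih (NM ∩ M) (fun s hs => hNMA s (mem_inter.1 hs).1) (d - 1)
        (fun T hT => by have := hshF1 T hT; omega)
      obtain ⟨e, rfl⟩ : ∃ e, d = e + 1 := ⟨d - 1, by omega⟩
      rw [Nat.add_sub_cancel] at hF1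
      rw [hcardF, ← hcard2]
      nlinarith

/-- PM-5 -/
theorem haussler {α : Type} (F : Finset (Finset α)) (hF : F.Nonempty) (k : ℕ)
    (h : ∀ s ∈ F, ∃ T : Finset α, 2 * k ≤ T.card ∧ ∀ a ∈ T, symmDiff s {a} ∈ F) :
    ∃ T : Finset α, F.Shatters T ∧ T.card = k := by
  by_contra hcon
  have hk : 1 ≤ k := by
    by_contra hk
    apply hcon
    refine ⟨∅, ?_, by simp; omega⟩
    intro t ht
    obtain ⟨u, hu⟩ := hF
    exact ⟨u, hu, by rw [subset_empty.1 ht, empty_inter]⟩
  have hsh : ∀ T : Finset α, F.Shatters T → T.card ≤ k - 1 := by
    intro T hT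
    by_contra hTk
    obtain ⟨T', hT', hc⟩ := exists_subset_card_eq (show k ≤ T.card by omega)
    exact hcon ⟨T', hT.mono_right hT', hc⟩
  have hmain := h2_main (F.biUnion id) F (fun s hs => subset_biUnion_of_mem id hs) (k - 1) hsh
  choose! T hT using h
  -- counting
  set Q := (F ×ˢ F).filter (fun p => H2R p.1 p.2 ∨ H2R p.2 p.1) with hQ
  have hQle : Q.card ≤ 2 * (H2P F).card := by
    have hsub : Q ⊆ H2P F ∪ (H2P F).image Prod.swap := by
      rintro ⟨s, t⟩ hp
      rw [hQ, mem_filter, mem_product] at hp
      rcases hp.2 with h1 | h1
      · apply mem_union_left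
        rw [h2_mem_P]
        exact ⟨hp.1.1, hp.1.2, h1.1, h1.2⟩
      · apply mem_union_right
        rw [mem_image]
        refine ⟨(t, s), ?_, rfl⟩
        rw [h2_mem_P]
        exact ⟨hp.1.2, hp.1.1, h1.1, h1.2⟩
    calc Q.card ≤ _ := card_le_card hsub
      _ ≤ (H2P F).card + ((H2P F).image Prod.swap).card := card_union_le _ _
      _ ≤ (H2P F).card + (H2P F).card := Nat.add_le_add_left card_image_le _
      _ = _ := by ring
  have hQge : 2 * k * F.card ≤ Q.card := by
    have hinj : (F.sigma (fun s => T s)).card ≤ Q.card := by
      apply card_le_card_of_injOn (fun p : (_ : Finset α) × α => (p.1, symmDiff p.1 {p.2}))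
      · rintro ⟨s, a⟩ hp
        have hp' := mem_sigma.1 (mem_coe.1 hp)
        simp only at hp'
        rw [mem_coe, hQ, mem_filter, mem_product]
        refine ⟨⟨hp'.1, (hT s hp'.1).2 a hp'.2⟩, ?_⟩
        unfold H2R
        by_cases has : a ∈ s
        · left
          have h1 : symmDiff s {a} = s.erase a := by
            ext x
            rw [mem_symmDiff, mem_erase, mem_singleton]
            constructor
            · rintro (⟨h1, h2⟩ | ⟨h1, h2⟩)
              · exact ⟨h2, h1⟩
              · rw [h1] at h2; exact absurd has h2
            · rintro ⟨h1, h2⟩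
              exact Or.inl ⟨h2, h1⟩
          simp only [h1]
          refine ⟨erase_subset _ _, ?_⟩
          rw [card_erase_of_mem has]
          have := card_pos.2 ⟨a, has⟩
          omega
        · right
          have h1 : symmDiff s {a} = insert a s := by
            ext x
            rw [mem_symmDiff, mem_insert, mem_singleton]
            constructor
            · rintro (⟨h1, h2⟩ | ⟨h1, h2⟩)
              · exact Or.inr h1
              · exact Or.inl h1
            · rintro (h1 | h1)
              · rw [h1]; exact Or.inr ⟨rfl, has⟩
              · refine Or.inl ⟨h1, ?_⟩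
                intro h2
                rw [h2] at h1
                exact has h1
          simp only [h1]
          exact ⟨subset_insert _ _, card_insert_of_notMem has⟩
      · rintro ⟨s, a⟩ hp ⟨s', a'⟩ hp' heq
        simp only [Prod.mk.injEq] at heq
        obtain ⟨rfl, h2⟩ := heq
        have h3 := symmDiff_right_injective s h2
        rw [singleton_inj] at h3
        rw [h3]
    rw [card_sigma] at hinj
    calc 2 * k * F.card = ∑ s ∈ F, 2 * k := by rw [sum_const, smul_eq_mul]; ring
      _ ≤ ∑ s ∈ F, (T s).card := sum_le_sum (fun s hs => (hT s hs).1)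
      _ ≤ Q.card := hinj
  have hFpos := card_pos.2 hF
  obtain ⟨e, rfl⟩ : ∃ e, k = e + 1 := ⟨k - 1, by omega⟩
  rw [Nat.add_sub_cancel] at hmain
  nlinarith

end Pool.Agent.Helper35.PM
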