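import Pool.Agent.Helper35.PM.Defs2

set_option autoImplicit false

namespace Pool.Agent.Helper35.PM

open Finset
open scoped Classical

/-- neighbours of `v` inside `S` -/
noncomputable def mdN {V : Type} (Q : SimpleGraph V) (S : Finset V) (v : V) : Finset V :=
  S.filter fun y => Q.Adj v y

/-- vertices of `S` with a neighbour in `U` -/
noncomputable def mdNU {V : Type} (Q : SimpleGraph V) (S U : Finset V) : Finset V :=
  S.filter fun y => ∃ x ∈ U, Q.Adj x y

lemma md_ePairs {V : Type} (Q : SimpleGraph V) (P : Finset V) :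
    ePairs Q P P = ∑ v ∈ P, (mdN Q P v).card := by
  unfold ePairs mdN
  rw [card_filter, sum_product]
  apply sum_congr rfl
  intro v _
  rw [card_filter]

/-- deleting a vertex -/
lemma md_delete {V : Type} (Q : SimpleGraph V) (P : Finset V) (v : V) (hv : v ∈ P) :
    ePairs Q P P = ePairs Q (P.erase v) (P.erase v) + 2 * (mdN Q (P.erase v) v).card := by
  have h1 : ∀ x ∈ P.erase v, (mdN Q P x).card = (mdN Q (P.erase v) x).card +
      (if Q.Adj v x then 1 else 0) := by
    intro x hx
    unfold mdN
    rw [filter_erase]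
    by_cases h : Q.Adj v x
    · have hm : v ∈ P.filter (fun y => Q.Adj x y) := mem_filter.2 ⟨hv, h.symm⟩
      have h0 := card_erase_add_one hm
      rw [if_pos h]
      exact h0.symm
    · rw [if_neg h, erase_eq_of_notMem, add_zero]
      intro h2
      exact h (mem_filter.1 h2).2.symm
  have h2 : (mdN Q P v).card = (mdN Q (P.erase v) v).card := by
    unfold mdN
    rw [filter_erase, erase_eq_of_notMem]
    intro h
    exact Q.loopless.irrefl v (mem_filter.1 h).2
  have h3 : ∑ x ∈ P.erase v, (if Q.Adj v x then 1 else 0) = (mdN Q (P.erase v) v).card := by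
    unfold mdN
    rw [card_filter]
  rw [md_ePairs, md_ePairs, ← add_sum_erase P _ hv, h2, sum_congr rfl h1, sum_add_distrib, h3]
  ring

lemma md_connIn_insert {V : Type} (Q : SimpleGraph V) (U : Finset V) (hU : ConnIn Q U) (v : V)
    (hv : ∃ x ∈ U, Q.Adj x v) (hvU : v ∉ U) : ConnIn Q (insert v U) := by
  refine ⟨insert_nonempty _ _, ?_⟩
  intro T hT hTne hTneq
  obtain ⟨x, hx, hxv⟩ := hv
  by_cases hvT : v ∈ T
  · by_cases hxT : x ∈ T
    · by_cases hTU : T ∩ U = U
      · exfalso
        apply hTneq
        apply Subset.antisymm hT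
        intro y hy
        rcases mem_insert.1 hy with rfl | hy
        · exact hvT
        · rw [← hTU] at hy
          exact (mem_inter.1 hy).1
      · obtain ⟨a, ha, b, hb, hab⟩ := hU.2 (T ∩ U) inter_subset_right
          ⟨x, mem_inter.2 ⟨hxT, hx⟩⟩ hTU
        rw [mem_inter] at ha
        rw [mem_sdiff, mem_inter] at hb
        refine ⟨a, ha.1, b, ?_, hab⟩
        rw [mem_sdiff, mem_insert]
        exact ⟨Or.inr hb.1, fun h => hb.2 ⟨h, hb.1⟩⟩
    · refine ⟨v, hvT, x, ?_, hxv.symm⟩
      rw [mem_sdiff, mem_insert]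
      exact ⟨Or.inr hx, hxT⟩
  · have hTU : T ⊆ U := by
      intro y hy
      rcases mem_insert.1 (hT hy) with rfl | h
      · exact absurd hy hvT
      · exact h
    by_cases hTeq : T = U
    · refine ⟨x, by rw [hTeq]; exact hx, v, ?_, hxv⟩
      rw [mem_sdiff]
      exact ⟨mem_insert_self _ _, hvT⟩
    · obtain ⟨a, ha, b, hb, hab⟩ := hU.2 T hTU hTne hTeq
      rw [mem_sdiff] at hb
      refine ⟨a, ha, b, ?_, hab⟩
      rw [mem_sdiff, mem_insert]
      exact ⟨Or.inr hb.1, hb.2⟩

/-- PM-11: dense graphs have complete minors. -/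
theorem model_of_dense (m : ℕ) {V : Type} [Fintype V] (Q : SimpleGraph V) (P : Finset V)
    (hP : P.Nonempty) (h : 2 ^ m * P.card ≤ ePairs Q P P) :
    ∃ B : Fin m → Finset V, (∀ i, B i ⊆ P) ∧ Model Q B := by
  induction m generalizing P with
  | zero =>
    refine ⟨fun i => i.elim0, fun i => i.elim0, fun i => i.elim0, fun i => i.elim0, fun i => i.elim0⟩
  | succ m ih =>
    -- minimal `P₁`
    have hmin : ∃ P₁ ⊆ P, P₁.Nonempty ∧ 2 ^ (m + 1) * P₁.card ≤ ePairs Q P₁ P₁ ∧
        ∀ P₂ ⊆ P₁, P₂.Nonempty → P₂ ≠ P₁ → ePairs Q P₂ P₂ < 2 ^ (m + 1) * P₂.card := by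
      have hfin : (P.powerset.filter fun R => R.Nonempty ∧
          2 ^ (m + 1) * R.card ≤ ePairs Q R R).Nonempty :=
        ⟨P, mem_filter.2 ⟨mem_powerset_self P, hP, h⟩⟩
      obtain ⟨P₁, hP₁, hmin⟩ := exists_min_image _ (fun R => R.card) hfin
      rw [mem_filter, mem_powerset] at hP₁
      refine ⟨P₁, hP₁.1, hP₁.2.1, hP₁.2.2, ?_⟩
      intro P₂ h2 h3 h4
      by_contra h5
      push Not at h5
      have h6 := hmin P₂ (mem_filter.2 ⟨mem_powerset.2 (h2.trans hP₁.1), h3, h5⟩)
      exact h4 (eq_of_subset_of_card_le h2 h6)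
    obtain ⟨P₁, hP₁P, hP₁ne, hP₁e, hP₁min⟩ := hmin
    -- maximal `U`
    obtain ⟨v₀, hv₀⟩ := hP₁ne
    have hset : (P₁.powerset.filter fun U => ConnIn Q U ∧ 2 ^ (m + 1) * (P₁.card - U.card + 1) ≤
        ePairs Q (P₁ \ U) (P₁ \ U) + 2 * (mdNU Q (P₁ \ U) U).card).Nonempty := by
      refine ⟨{v₀}, mem_filter.2 ⟨mem_powerset.2 (singleton_subset_iff.2 hv₀), ?_, ?_⟩⟩
      · refine ⟨singleton_nonempty _, ?_⟩
        intro T hT hTne hTneq
        exfalso
        apply hTneq
        rcases subset_singleton_iff.1 hT with h | h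
        · rw [h] at hTne; exact absurd hTne not_nonempty_empty
        · exact h
      · have h1 : P₁ \ {v₀} = P₁.erase v₀ := by rw [sdiff_singleton_eq_erase]
        have h2 : mdNU Q (P₁ \ {v₀}) {v₀} = mdN Q (P₁.erase v₀) v₀ := by
          unfold mdNU mdN
          rw [h1]
          apply filter_congr
          intro y _
          constructor
          · rintro ⟨x, hx, hxy⟩
            rw [mem_singleton] at hx
            rwa [hx] at hxy
          · intro h
            exact ⟨v₀, mem_singleton_self _, h⟩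
        rw [h2, h1, ← md_delete Q P₁ v₀ hv₀, card_singleton]
        have := card_pos.2 ⟨v₀, hv₀⟩
        rw [Nat.sub_add_cancel this]
        exact hP₁e
    obtain ⟨U, hU, hUmax⟩ := exists_max_image _ (fun U => U.card) hset
    rw [mem_filter, mem_powerset] at hU
    obtain ⟨hUP, hUc, hUe⟩ := hU
    set R := P₁ \ U with hR
    set Y := mdNU Q R U with hY
    have hRcard : R.card = P₁.card - U.card := by
      rw [hR, card_sdiff_of_subset hUP]
    have hYR : Y ⊆ R := filter_subset _ _
    have hYne : Y.Nonempty := by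
      by_contra hne
      rw [not_nonempty_iff_eq_empty] at hne
      rw [hne, card_empty, mul_zero, add_zero, ← hRcard] at hUe
      rcases R.eq_empty_or_nonempty with hRe | hRne
      · rw [hRe] at hUe
        have h0 : ePairs Q (∅ : Finset V) ∅ = 0 := by
          unfold ePairs
          simp
        rw [h0] at hUe
        have : 0 < 2 ^ (m + 1) := by positivity
        simp at hUe
      · have h1 := hP₁min R sdiff_subset hRne (by
          intro hRP
          obtain ⟨u, hu⟩ := hUc.1
          have h2 : u ∈ R := by rw [hRP]; exact hUP hu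
          rw [hR, mem_sdiff] at h2
          exact h2.2 hu)
        have : 0 < 2 ^ (m + 1) := by positivity
        nlinarith
    have hdeg : ∀ v ∈ Y, 2 ^ m ≤ (mdN Q Y v).card := by
      intro v hv
      have hvR : v ∈ R := hYR hv
      have hvP : v ∈ P₁ := (mem_sdiff.1 hvR).1
      have hvU : v ∉ U := (mem_sdiff.1 hvR).2
      have hvx : ∃ x ∈ U, Q.Adj x v := (mem_filter.1 hv).2
      have hcc := md_connIn_insert Q U hUc v hvx hvU
      have hnot : ¬ (2 ^ (m + 1) * (P₁.card - (insert v U).card + 1) ≤
          ePairs Q (P₁ \ insert v U) (P₁ \ insert v U) +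
            2 * (mdNU Q (P₁ \ insert v U) (insert v U)).card) := by
        intro hcon
        have h1 := hUmax (insert v U) (mem_filter.2 ⟨mem_powerset.2
          (insert_subset hvP hUP), hcc, hcon⟩)
        rw [card_insert_of_notMem hvU] at h1
        omega
      push Not at hnot
      have hRv : P₁ \ insert v U = R.erase v := by
        rw [hR]
        ext y
        simp only [mem_sdiff, mem_insert, mem_erase]
        tauto
      rw [hRv, card_insert_of_notMem hvU] at hnot
      have hdel := md_delete Q R v hvR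
      have hRpos : 0 < R.card := card_pos.2 ⟨v, hvR⟩
      have harith : P₁.card - (U.card + 1) + 1 = P₁.card - U.card := by omega
      rw [harith] at hnot
      -- the neighbourhood of `insert v U`
      have hNcard : Y.card + (mdN Q (R.erase v) v).card ≤
          (mdNU Q (R.erase v) (insert v U)).card + (mdN Q Y v).card + 1 := by
        have h1 : mdNU Q (R.erase v) (insert v U) = (Y.erase v) ∪ mdN Q (R.erase v \ Y) v := by
          unfold mdNU mdN
          ext y
          simp only [hY, mdNU, mem_filter, mem_union, mem_erase, mem_insert, mem_sdiff]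
          constructor
          · rintro ⟨⟨h1, h2⟩, x, hx, hxy⟩
            rcases hx with rfl | hx
            · by_cases h3 : ∃ x ∈ U, Q.Adj x y
              · exact Or.inl ⟨h1, h2, h3⟩
              · exact Or.inr ⟨⟨⟨h1, h2⟩, fun h => h3 h.2⟩, hxy⟩
            · exact Or.inl ⟨h1, h2, x, hx, hxy⟩
          · rintro (⟨h1, h2, x, hx, hxy⟩ | ⟨⟨⟨h1, h2⟩, h3⟩, h4⟩)
            · exact ⟨⟨h1, h2⟩, x, Or.inr hx, hxy⟩
            · exact ⟨⟨h1, h2⟩, v, Or.inl rfl, h4⟩
        have h2 : (mdN Q (R.erase v) v).card = (mdN Q (R.erase v \ Y) v).card +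
            (mdN Q Y v).card := by
          have h3 : mdN Q (R.erase v) v = mdN Q (R.erase v \ Y) v ∪ mdN Q Y v := by
            unfold mdN
            ext y
            simp only [mem_filter, mem_union, mem_erase, mem_sdiff]
            constructor
            · rintro ⟨⟨h1, h2⟩, h3⟩
              by_cases h4 : y ∈ Y
              · exact Or.inr ⟨h4, h3⟩
              · exact Or.inl ⟨⟨⟨h1, h2⟩, h4⟩, h3⟩
            · rintro (⟨⟨⟨h1, h2⟩, h3⟩, h4⟩ | ⟨h1, h2⟩)
              · exact ⟨⟨h1, h2⟩, h4⟩
              · refine ⟨⟨?_, hYR h1⟩, h2⟩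
                rintro rfl
                exact Q.loopless.irrefl _ h2
          rw [h3, card_union_of_disjoint]
          rw [disjoint_left]
          intro y hy hy2
          exact (mem_sdiff.1 (mem_filter.1 hy).1).2 (mem_filter.1 hy2).1
        rw [h1, h2]
        have h4 : Disjoint (Y.erase v) (mdN Q (R.erase v \ Y) v) := by
          rw [disjoint_left]
          intro y hy hy2
          exact (mem_sdiff.1 (mem_filter.1 hy2).1).2 (mem_erase.1 hy).2
        rw [card_union_of_disjoint h4]
        have h5 := card_erase_add_one hv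
        omega
      have hpow : 2 ^ (m + 1) * (P₁.card - U.card + 1) =
          2 ^ (m + 1) * (P₁.card - U.card) + 2 ^ (m + 1) := by ring
      rw [hpow] at hUe
      have hpow2 : 2 ^ (m + 1) = 2 * 2 ^ m := by ring
      omega
    have hYe : 2 ^ m * Y.card ≤ ePairs Q Y Y := by
      rw [md_ePairs]
      calc 2 ^ m * Y.card = ∑ v ∈ Y, 2 ^ m := by rw [sum_const, smul_eq_mul, mul_comm]
        _ ≤ _ := sum_le_sum hdeg
    obtain ⟨B, hBY, hBc, hBd, hBa⟩ := ih Y hYne hYe
    refine ⟨Fin.cons U B, ?_, ?_, ?_, ?_⟩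
    · intro i
      refine Fin.cases ?_ (fun j => ?_) i
      · exact hUP.trans hP₁P
      · exact (hBY j).trans (hYR.trans (sdiff_subset.trans hP₁P))
    · intro i
      refine Fin.cases ?_ (fun j => ?_) i
      · exact hUc
      · exact hBc j
    · have hdUj : ∀ j, Disjoint U (B j) := by
        intro j
        rw [disjoint_left]
        intro x hx hxj
        exact (mem_sdiff.1 (hYR (hBY j hxj))).2 hx
      intro i j
      refine Fin.cases ?_ (fun i' => ?_) i <;> refine Fin.cases ?_ (fun j' => ?_) j
      · intro h; exact absurd rfl h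
      · intro _; exact hdUj j'
      · intro _; exact (hdUj i').symm
      · intro h
        exact hBd i' j' (fun h2 => h (by rw [h2]))
    · have haUj : ∀ j, ∃ x ∈ U, ∃ y ∈ B j, Q.Adj x y := by
        intro j
        obtain ⟨y, hy⟩ := (hBc j).1
        obtain ⟨x, hx, hxy⟩ := (mem_filter.1 (hBY j hy)).2
        exact ⟨x, hx, y, hy, hxy⟩
      intro i j
      refine Fin.cases ?_ (fun i' => ?_) i <;> refine Fin.cases ?_ (fun j' => ?_) j
      · intro h; exact absurd rfl h
      · intro _; exact haUj j'
      · intro _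
        obtain ⟨x, hx, y, hy, hxy⟩ := haUj i'
        exact ⟨y, hy, x, hx, hxy.symm⟩
      · intro h
        exact hBa i' j' (fun h2 => h (by rw [h2]))

end Pool.Agent.Helper35.PM
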