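import Pool.Agent.Helper35.PM.Defs2

set_option autoImplicit false

namespace Pool.Agent.Helper35.PM

open Finset
open scoped Classical

/-- PM-12: a rooted complete model together with disjoint triples gives a projective space. -/
theorem hasPG_of_rooted {V : Type} [Fintype V] (G : SimpleGraph V) (k : ℕ) (hk : 2 ≤ k)
    (F : Finset V) (Q : SimpleGraph V) (hF : ∀ x ∈ F, ∀ y ∈ F, ¬ G.Adj x y)
    (hQ : ∀ x y, Q.Adj x y → x ∈ F ∧ y ∈ F ∧ ∃ a, ∀ v ∈ F, G.Adj a v ↔ (v = x ∨ v = y))
    (t : {S : Finset (Fin k) // 2 ≤ S.card} × Fin 3 → V)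
    (htF : ∀ p, t p ∈ F)
    (hcol : ∀ S, ∃ a, ∀ v ∈ F, G.Adj a v ↔ ∃ j, v = t (S, j))
    (C : {S : Finset (Fin k) // 2 ≤ S.card} × Fin 3 → Finset V) (htC : ∀ p, t p ∈ C p)
    (hCF : ∀ p, C p ⊆ F) (hC : Model Q C) : HasPG G k := by
  obtain ⟨hconn, hdisj, hadj⟩ := hC
  set R : Finset V := univ.biUnion C with hR
  have hCR : ∀ p, C p ⊆ R := fun p => subset_biUnion_of_mem C (mem_univ p)
  have hRF : R ⊆ F := by
    intro v hv
    obtain ⟨p, _, hp⟩ := mem_biUnion.1 hv
    exact hCF p hp
  have hRind : ∀ x ∈ R, ∀ y ∈ R, ¬ G.Adj x y := fun x hx y hy => hF x (hRF hx) y (hRF hy)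
  -- labels
  have hne : ∀ S : {S : Finset (Fin k) // 2 ≤ S.card}, S.1.Nonempty := fun S =>
    card_pos.1 (by have := S.2; omega)
  let mn : {S : Finset (Fin k) // 2 ≤ S.card} → Fin k := fun S => S.1.min' (hne S)
  have hmn : ∀ S, mn S ∈ S.1 := fun S => min'_mem _ _
  let lab : {S : Finset (Fin k) // 2 ≤ S.card} × Fin 3 → Finset (Fin k) := fun p =>
    if p.2 = 0 then p.1.1 else if p.2 = 1 then p.1.1.erase (mn p.1) else {mn p.1}
  have hlab0 : ∀ S, lab (S, 0) = S.1 := fun S => by simp [lab]
  have hlab1 : ∀ S, lab (S, 1) = S.1.erase (mn S) := fun S => by simp [lab]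
  have hlab2 : ∀ S, lab (S, 2) = {mn S} := fun S => by simp [lab]
  have hlabne : ∀ p, (lab p).Nonempty := by
    rintro ⟨S, j⟩
    fin_cases j
    · simp only [Fin.zero_eta, hlab0]; exact hne S
    · simp only [Fin.mk_one, hlab1]
      apply card_pos.1
      rw [card_erase_of_mem (hmn S)]
      have := S.2
      omega
    · simp only [Fin.reduceFinMk, hlab2]; exact singleton_nonempty _
  have hlabex : ∀ S : Finset (Fin k), S.Nonempty → ∃ p, lab p = S := by
    intro S hS
    by_cases h2 : 2 ≤ S.card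
    · exact ⟨(⟨S, h2⟩, 0), hlab0 _⟩
    · have h1 : S.card = 1 := by have := card_pos.2 hS; omega
      obtain ⟨i, rfl⟩ := card_eq_one.1 h1
      obtain ⟨j, hj⟩ : ∃ j : Fin k, j ≠ i := by
        haveI : Nontrivial (Fin k) := Fin.nontrivial_iff_two_le.2 hk
        exact exists_ne i
      have hc : 2 ≤ ({i, j} : Finset (Fin k)).card := by
        rw [card_pair hj.symm]
      have hm := hmn ⟨{i, j}, hc⟩
      simp only [mem_insert, mem_singleton] at hm
      rcases hm with hm | hm
      · exact ⟨(⟨{i, j}, hc⟩, 2), by rw [hlab2, hm]⟩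
      · refine ⟨(⟨{i, j}, hc⟩, 1), ?_⟩
        rw [hlab1, hm]
        ext x
        simp only [mem_erase, mem_insert, mem_singleton]
        constructor
        · rintro ⟨h1, h2 | h2⟩
          · exact h2
          · exact absurd h2 h1
        · rintro rfl
          exact ⟨hj.symm, Or.inl rfl⟩
  let lb : V → Finset (Fin k) := fun v => if h : ∃ p, v ∈ C p then lab h.choose else ∅
  have hlb : ∀ p, ∀ v ∈ C p, lb v = lab p := by
    intro p v hv
    have h : ∃ p, v ∈ C p := ⟨p, hv⟩
    have h1 : lb v = lab h.choose := dif_pos h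
    have h2 : h.choose = p := by
      by_contra hne
      exact disjoint_left.1 (hdisj _ _ hne) h.choose_spec hv
    rw [h1, h2]
  -- vectors
  have hvecR : ∀ x ∈ R, vec G R x = Pi.single x (1 : ZMod 2) := by
    intro x hx
    funext r
    unfold vec
    by_cases h : r = x
    · subst h
      rw [if_pos ⟨hx, Or.inl rfl⟩, Pi.single_eq_same]
    · rw [Pi.single_eq_of_ne h, if_neg]
      rintro ⟨hr, h1 | h1⟩
      · exact h h1.symm
      · exact hRind x hx r hr h1
  have hvec2 : ∀ x ∈ R, ∀ y ∈ R, x ≠ y → ∀ a, (∀ v ∈ F, G.Adj a v ↔ (v = x ∨ v = y)) →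
      vec G R a = vec G R x + vec G R y := by
    intro x hx y hy hxy a ha
    rw [hvecR x hx, hvecR y hy]
    have haF : a ∉ F := fun h => hF a h x (hRF hx) ((ha x (hRF hx)).2 (Or.inl rfl))
    funext r
    unfold vec
    rw [Pi.add_apply]
    by_cases hrR : r ∈ R
    · have har : a ≠ r := fun h => haF (h ▸ hRF hrR)
      have h1 := ha r (hRF hrR)
      by_cases hrx : r = x
      · subst hrx
        rw [Pi.single_eq_same, Pi.single_eq_of_ne hxy, if_pos ⟨hrR, Or.inr (h1.2 (Or.inl rfl))⟩,
          add_zero]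
      · by_cases hry : r = y
        · subst hry
          rw [Pi.single_eq_same, Pi.single_eq_of_ne hrx, if_pos ⟨hrR, Or.inr (h1.2 (Or.inr rfl))⟩,
            zero_add]
        · rw [Pi.single_eq_of_ne hrx, Pi.single_eq_of_ne hry, add_zero, if_neg]
          rintro ⟨_, h2 | h2⟩
          · exact har h2
          · rcases h1.1 h2 with h3 | h3
            · exact hrx h3
            · exact hry h3
    · rw [if_neg (fun h => hrR h.1), Pi.single_eq_of_ne (fun h => hrR (by rw [h]; exact hx)),
        Pi.single_eq_of_ne (fun h => hrR (by rw [h]; exact hy)), add_zero]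
  have htR : ∀ p, t p ∈ R := fun p => hCR p (htC p)
  have htinj : ∀ p p', p ≠ p' → t p ≠ t p' := by
    intro p p' hpp h
    apply disjoint_left.1 (hdisj p p' hpp) (htC p)
    rw [h]
    exact htC p'
  have hvec3 : ∀ S, ∀ a, (∀ v ∈ F, G.Adj a v ↔ ∃ j, v = t (S, j)) →
      vec G R a = vec G R (t (S, 0)) + vec G R (t (S, 1)) + vec G R (t (S, 2)) := by
    intro S a ha
    rw [hvecR _ (htR _), hvecR _ (htR _), hvecR _ (htR _)]
    have haF : a ∉ F := fun h => hF a h (t (S, 0)) (htF _) ((ha _ (htF _)).2 ⟨0, rfl⟩)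
    have h01 : t (S, 0) ≠ t (S, 1) := htinj _ _ (by simp)
    have h02 : t (S, 0) ≠ t (S, 2) := htinj _ _ (by simp)
    have h12 : t (S, 1) ≠ t (S, 2) := htinj _ _ (by simp)
    funext r
    unfold vec
    rw [Pi.add_apply, Pi.add_apply]
    by_cases hrR : r ∈ R
    · have har : a ≠ r := fun h => haF (h ▸ hRF hrR)
      have h1 := ha r (hRF hrR)
      by_cases hr0 : r = t (S, 0)
      · rw [if_pos ⟨hrR, Or.inr (h1.2 ⟨0, hr0⟩)⟩, hr0, Pi.single_eq_same,
          Pi.single_eq_of_ne h01, Pi.single_eq_of_ne h02]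
        simp
      · by_cases hr1 : r = t (S, 1)
        · rw [if_pos ⟨hrR, Or.inr (h1.2 ⟨1, hr1⟩)⟩, hr1, Pi.single_eq_same,
            Pi.single_eq_of_ne h01.symm, Pi.single_eq_of_ne h12]
          simp
        · by_cases hr2 : r = t (S, 2)
          · rw [if_pos ⟨hrR, Or.inr (h1.2 ⟨2, hr2⟩)⟩, hr2, Pi.single_eq_same,
              Pi.single_eq_of_ne h02.symm, Pi.single_eq_of_ne h12.symm]
            simp
          · rw [Pi.single_eq_of_ne hr0, Pi.single_eq_of_ne hr1, Pi.single_eq_of_ne hr2, if_neg]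
            · simp
            rintro ⟨_, h2 | h2⟩
            · exact har h2
            · obtain ⟨j, hj⟩ := h1.1 h2
              fin_cases j
              · exact hr0 hj
              · exact hr1 hj
              · exact hr2 hj
    · rw [if_neg (fun h => hrR h.1), Pi.single_eq_of_ne (fun h => hrR (by rw [h]; exact htR _)),
        Pi.single_eq_of_ne (fun h => hrR (by rw [h]; exact htR _)),
        Pi.single_eq_of_ne (fun h => hrR (by rw [h]; exact htR _))]
      simp
  -- the set `D`
  let D : Set V := {a | (∃ x ∈ R, ∃ y ∈ R, x ≠ y ∧ lb x = lb y ∧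
    ∀ v ∈ F, G.Adj a v ↔ (v = x ∨ v = y)) ∨ ∃ S, ∀ v ∈ F, G.Adj a v ↔ ∃ j, v = t (S, j)}
  set W := Submodule.span (ZMod 2) (vec G R '' D) with hW
  have h2zero : ∀ z : V → ZMod 2, z + z = 0 := fun z => by
    funext i
    exact CharTwo.add_self_eq_zero (z i)
  have hneg : ∀ z : V → ZMod 2, -z = z := fun z => by
    rw [neg_eq_iff_add_eq_zero]; exact h2zero z
  -- edges of `Q` with equal labels
  have hedge : ∀ x ∈ R, ∀ y ∈ R, Q.Adj x y → lb x = lb y → vec G R x + vec G R y ∈ W := by
    intro x hx y hy hxy hl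
    obtain ⟨_, _, a, ha⟩ := hQ x y hxy
    rw [← hvec2 x hx y hy hxy.ne a ha]
    exact Submodule.subset_span ⟨a, Or.inl ⟨x, hx, y, hy, hxy.ne, hl, ha⟩, rfl⟩
  have htriple : ∀ S, vec G R (t (S, 0)) + vec G R (t (S, 1)) + vec G R (t (S, 2)) ∈ W := by
    intro S
    obtain ⟨a, ha⟩ := hcol S
    rw [← hvec3 S a ha]
    exact Submodule.subset_span ⟨a, Or.inr ⟨S, ha⟩, rfl⟩
  have hsame : ∀ p, ∀ v ∈ C p, vec G R v + vec G R (t p) ∈ W := by
    intro p
    by_contra hcon
    push Not at hcon
    obtain ⟨v₀, hv₀, hv₀W⟩ := hcon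
    set T := (C p).filter (fun v => vec G R v + vec G R (t p) ∈ W) with hT
    obtain ⟨x, hx, y, hy, hxy⟩ := (hconn p).2 T (filter_subset _ _)
      ⟨t p, mem_filter.2 ⟨htC p, by rw [h2zero]; exact W.zero_mem⟩⟩ (by
        intro h
        rw [← h] at hv₀
        exact hv₀W (mem_filter.1 hv₀).2)
    rw [hT, mem_filter] at hx
    rw [mem_sdiff, hT, mem_filter] at hy
    apply hy.2
    refine ⟨hy.1, ?_⟩
    have h1 := hedge x (hCR p hx.1) y (hCR p hy.1) hxy (by rw [hlb p x hx.1, hlb p y hy.1])
    have h2 := W.add_mem hx.2 h1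
    have h3 : vec G R x + vec G R (t p) + (vec G R x + vec G R y) =
        vec G R y + vec G R (t p) := by
      have := h2zero (vec G R x)
      calc _ = (vec G R x + vec G R x) + (vec G R y + vec G R (t p)) := by abel
        _ = _ := by rw [this, zero_add]
    rwa [h3] at h2
  have hsame2 : ∀ p p', lab p = lab p' → vec G R (t p) + vec G R (t p') ∈ W := by
    intro p p' hl
    by_cases hpp : p = p'
    · rw [hpp, h2zero]; exact W.zero_mem
    obtain ⟨x, hx, y, hy, hxy⟩ := hadj p p' hpp
    have h1 := hedge x (hCR p hx) y (hCR p' hy) hxy (by rw [hlb p x hx, hlb p' y hy, hl])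
    have h2 := hsame p x hx
    have h3 := hsame p' y hy
    have h4 := W.add_mem (W.add_mem h1 h2) h3
    have h5 : vec G R x + vec G R y + (vec G R x + vec G R (t p)) +
        (vec G R y + vec G R (t p')) = vec G R (t p) + vec G R (t p') := by
      calc _ = (vec G R x + vec G R x) + (vec G R y + vec G R y) +
            (vec G R (t p) + vec G R (t p')) := by abel
        _ = _ := by rw [h2zero, h2zero, zero_add, zero_add]
    rwa [h5] at h4
  -- the map `f`
  have hidx : Nonempty ({S : Finset (Fin k) // 2 ≤ S.card} × Fin 3) := by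
    obtain ⟨p, _⟩ := hlabex univ ⟨⟨0, by omega⟩, mem_univ _⟩
    exact ⟨p⟩
  let pf : Finset (Fin k) → {S : Finset (Fin k) // 2 ≤ S.card} × Fin 3 := fun S =>
    if h : ∃ p, lab p = S then h.choose else Classical.choice hidx
  have hpf : ∀ S : Finset (Fin k), S.Nonempty → lab (pf S) = S := by
    intro S hS
    have h := hlabex S hS
    have h1 : pf S = h.choose := dif_pos h
    rw [h1]
    exact h.choose_spec
  have hkey : ∀ n : ℕ, ∀ S : Finset (Fin k), S.card = n → S.Nonempty →
      vec G R (t (pf S)) + ∑ i ∈ S, vec G R (t (pf {i})) ∈ W := by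
    intro n
    induction n using Nat.strong_induction_on with
    | _ n ih =>
      intro S hSn hS
      by_cases h2 : 2 ≤ S.card
      · set S' : {S : Finset (Fin k) // 2 ≤ S.card} := ⟨S, h2⟩ with hS'
        have hm : mn S' ∈ S := hmn S'
        have h1 : vec G R (t (pf S)) + vec G R (t (S', 0)) ∈ W :=
          hsame2 _ _ (by rw [hpf S hS, hlab0])
        have hern : (S.erase (mn S')).Nonempty := by
          have := hlabne (S', 1)
          rwa [hlab1] at this
        have h3 : vec G R (t (S', 1)) + vec G R (t (pf (S.erase (mn S')))) ∈ W :=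
          hsame2 _ _ (by rw [hpf _ hern, hlab1])
        have h4 : vec G R (t (S', 2)) + vec G R (t (pf {mn S'})) ∈ W :=
          hsame2 _ _ (by rw [hpf _ (singleton_nonempty _), hlab2])
        have h5 := ih (S.erase (mn S')).card (by
          rw [card_erase_of_mem hm, ← hSn]
          omega) (S.erase (mn S')) rfl hern
        have h6 := htriple S'
        have h7 := W.add_mem (W.add_mem (W.add_mem (W.add_mem h1 h6) h3) h4) h5
        rw [← add_sum_erase S _ hm]
        have h8 : vec G R (t (pf S)) + vec G R (t (S', 0)) +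
            (vec G R (t (S', 0)) + vec G R (t (S', 1)) + vec G R (t (S', 2))) +
            (vec G R (t (S', 1)) + vec G R (t (pf (S.erase (mn S'))))) +
            (vec G R (t (S', 2)) + vec G R (t (pf {mn S'}))) +
            (vec G R (t (pf (S.erase (mn S')))) +
              ∑ i ∈ S.erase (mn S'), vec G R (t (pf {i}))) =
            vec G R (t (pf S)) + (vec G R (t (pf {mn S'})) +
              ∑ i ∈ S.erase (mn S'), vec G R (t (pf {i}))) := by
          calc _ = (vec G R (t (S', 0)) + vec G R (t (S', 0))) +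
                (vec G R (t (S', 1)) + vec G R (t (S', 1))) +
                (vec G R (t (S', 2)) + vec G R (t (S', 2))) +
                (vec G R (t (pf (S.erase (mn S')))) + vec G R (t (pf (S.erase (mn S'))))) +
                (vec G R (t (pf S)) + (vec G R (t (pf {mn S'})) +
                  ∑ i ∈ S.erase (mn S'), vec G R (t (pf {i})))) := by abel
            _ = _ := by simp only [h2zero, zero_add]
        rwa [h8] at h7
      · have h1 : S.card = 1 := by have := card_pos.2 hS; omega
        obtain ⟨i, rfl⟩ := card_eq_one.1 h1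
        rw [sum_singleton, h2zero]
        exact W.zero_mem
  -- the linear map
  let Φ : (V → ZMod 2) →ₗ[ZMod 2] (Fin k → ZMod 2) :=
    { toFun := fun g i => ∑ v ∈ R, g v * (if i ∈ lb v then 1 else 0)
      map_add' := by
        intro g h
        funext i
        simp only [Pi.add_apply, add_mul, sum_add_distrib]
      map_smul' := by
        intro c g
        funext i
        simp only [Pi.smul_apply, smul_eq_mul, RingHom.id_apply, mul_sum, mul_assoc] }
  have hΦ : ∀ x ∈ R, Φ (vec G R x) = fun i => if i ∈ lb x then 1 else 0 := by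
    intro x hx
    funext i
    have h1 : Φ (vec G R x) i = ∑ v ∈ R, vec G R x v * (if i ∈ lb v then 1 else 0) := rfl
    rw [h1, hvecR x hx, sum_eq_single x]
    · rw [Pi.single_eq_same, one_mul]
    · intro b _ hb
      rw [Pi.single_eq_of_ne hb, zero_mul]
    · intro h
      exact absurd hx h
  refine ⟨R, hRind, D, fun S => t (pf S), Φ, ?_, ?_, ?_⟩
  · rintro a (⟨x, hx, y, hy, hxy, hl, ha⟩ | ⟨S, ha⟩)
    · rw [hvec2 x hx y hy hxy a ha, map_add, hΦ x hx, hΦ y hy, hl]
      funext i
      rw [Pi.add_apply, Pi.zero_apply]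
      exact CharTwo.add_self_eq_zero _
    · rw [hvec3 S a ha, map_add, map_add, hΦ _ (htR _), hΦ _ (htR _), hΦ _ (htR _),
        hlb _ _ (htC _), hlb _ _ (htC _), hlb _ _ (htC _), hlab0, hlab1, hlab2]
      funext i
      simp only [Pi.add_apply, Pi.zero_apply, mem_erase, mem_singleton]
      by_cases h1 : i = mn S
      · have h2 : i ∈ S.1 := by rw [h1]; exact hmn S
        simp only [h1, hmn S, if_true, ne_eq, not_true_eq_false, false_and, if_false, add_zero]
        decide
      · by_cases h2 : i ∈ S.1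
        · simp only [h2, h1, if_true, ne_eq, not_false_eq_true, true_and, if_false, add_zero]
          decide
        · simp only [h2, h1, if_false, and_false, add_zero]
  · intro S hS
    rw [hΦ _ (htR _), hlb _ _ (htC _), hpf S hS]
  · intro S hS
    rw [sub_eq_add_neg, hneg]
    exact hkey _ S rfl hS

end Pool.Agent.Helper35.PM
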